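import Pool.Agent.Lib.MP_d81877_alI.Defs
import Pool.Agent.Lib.MP_d81877_alZF.Orth

/-!
# MP_d81877_al, part D: the map `p` from the tuple model to the commutative model

Sites: a linearly ordered type `ι`, relative to a finite set `V` of sites.
`Z ι K = Finset ι → Finset ι → K`, `u A B` is the coefficient of `ε_A f_B` (`D81877ZF.Form`),
the operators `th x`, `f x`, `d x`, `g x` are used for the multiplications by `ε_x`, `f_x`
and the derivations `∂/∂ε_x`, `∂/∂f_x`.
-/

namespace D81877M

open Finset Function MP_d81877_alI D81877ZF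

variable {ι : Type*} [LinearOrder ι] {K : Type*} [Field K]

/-- the cycle on `B` which sends every element to the previous one (smallest to largest) -/
def cyc (B : Finset ι) : Equiv.Perm ι := ((B.sort (· ≤ ·)).formPerm)⁻¹

/-- the word with doubles `A ∩ B`, empty sites `V \ (A ∪ B)`, and on `S = A ∆ B` the left
letter `1` on `I` and the right letter `3` on `c I` -/
def tup (V A B I : Finset ι) (c : Equiv.Perm ι) : Fin 4 → Finset ι :=
  ![(V \ (A ∪ B)) ∪ (symmDiff A B \ I), (V \ (A ∪ B)) ∪ I,
    (A ∩ B) ∪ (symmDiff A B \ I.image c), (A ∩ B) ∪ I.image c]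

/-- the map `p` -/
def p (V : Finset ι) (v : WW ι K) : Z ι K := fun A B =>
  if A ⊆ V ∧ B ⊆ V ∧ (B \ A).Nonempty then
    ∑ I ∈ (symmDiff A B).powerset, v (tup V A B I (cyc (B \ A))) else 0

theorem p_apply (V : Finset ι) (v : WW ι K) (A B : Finset ι) :
    p V v A B = if A ⊆ V ∧ B ⊆ V ∧ (B \ A).Nonempty then
      ∑ I ∈ (symmDiff A B).powerset, v (tup V A B I (cyc (B \ A))) else 0 := rfl

theorem p_add (V : Finset ι) (v w : WW ι K) : p V (v + w) = p V v + p V w := by
  funext A B
  simp only [p_apply, Pi.add_apply]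
  split_ifs
  · rw [← sum_add_distrib]
  · rw [add_zero]

theorem p_smul (V : Finset ι) (c : K) (v : WW ι K) : p V (c • v) = c • p V v := by
  funext A B
  simp only [p_apply, Pi.smul_apply, smul_eq_mul]
  split_ifs
  · rw [mul_sum]
  · rw [mul_zero]

theorem p_zero (V : Finset ι) : p V (0 : WW ι K) = 0 := by
  funext A B
  simp [p_apply]

theorem p_sum {α : Type*} (V : Finset ι) (s : Finset α) (v : α → WW ι K) :
    p V (∑ a ∈ s, v a) = ∑ a ∈ s, p V (v a) := by
  classical
  induction s using Finset.induction_on with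
  | empty => rw [sum_empty, sum_empty, p_zero]
  | insert a s ha ih => rw [sum_insert ha, sum_insert ha, p_add, ih]

/-- exchange of the sites `x` and `y` in words -/
def swW (x y : ι) (v : WW ι K) : WW ι K := fun S => v (fun j => (S j).image (Equiv.swap x y))

/-- exchange of the names `x` and `y` in the model `Z` -/
def swZ (x y : ι) : Module.End K (Z ι K) where
  toFun u := fun A B => u (A.image (Equiv.swap x y)) (B.image (Equiv.swap x y))
  map_add' _ _ := rfl
  map_smul' _ _ := rfl

theorem swZ_apply (x y : ι) (u : Z ι K) (A B : Finset ι) :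
    swZ x y u A B = u (A.image (Equiv.swap x y)) (B.image (Equiv.swap x y)) := rfl

/-- the twisted exchange of the sites `x`, `y` (adjacent in `V`) -/
def tws (x y : ι) : Module.End K (Z ι K) := swZ x y * (1 + f x * d x * (f y * d y))

/-- `x < y` are adjacent in `V` -/
def Adj (V : Finset ι) (x y : ι) : Prop :=
  x ∈ V ∧ y ∈ V ∧ x < y ∧ ∀ z ∈ V, ¬ (x < z ∧ z < y)

/-- the operator `E_x = ε_x + f_x ∑_{u > x} D_u` -/
def EE (V : Finset ι) (x : ι) : Module.End K (Z ι K) :=
  th x + f x * ∑ u ∈ V.filter (fun u => x < u), f u * d u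

/-- supported on words inside `V`, homogeneous of degree `2b+1` -/
def Hom (V : Finset ι) (b : ℕ) (z : Z ι K) : Prop :=
  ∀ A B, ¬ (A ⊆ V ∧ B ⊆ V ∧ A.card + B.card = 2 * b + 1) → z A B = 0

/-- a primitive vector `x` together with a word lift `w` of it -/
structure IsPair [Fintype ι] (V : Finset ι) (b : ℕ) (x : WW ι K) (w : Z ι K) : Prop where
  dm : Dm V b x
  hom : Hom V b w
  px : p V x = D V w
  pair : ∀ y : WW ι K, Dm V b y → ∑ S, x S * y S = B0 V w (p V y)

end D81877M
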