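import Pool.Agent.Lib.MP_d81877_alM.Closure
import Pool.Agent.Lib.MP_d81877_alCh.Chain
import Pool.Agent.Lib.MP_d81877_alZm.Membership

/-!
# MP_d81877_al, part D, T5: degrees of the words of lists, the recursion of the chain calculus,
and the inclusion of the span of the words in `U V b`
-/

namespace D81877M

open Finset Function MP_d81877_alI D81877ZF

variable {ι : Type*} [LinearOrder ι] {K : Type*} [Field K]

/-- supported on words inside `V`, homogeneous of degree `n` -/
def Deg (V : Finset ι) (n : ℕ) (z : Z ι K) : Prop :=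
  ∀ A B, ¬ (A ⊆ V ∧ B ⊆ V ∧ A.card + B.card = n) → z A B = 0

theorem hom_iff {V : Finset ι} {b : ℕ} {z : Z ι K} : Hom V b z ↔ Deg V (2 * b + 1) z := Iff.rfl

theorem Deg.zero (V : Finset ι) (n : ℕ) : Deg V n (0 : Z ι K) := fun _ _ _ => rfl

theorem Deg.add {V : Finset ι} {n : ℕ} {u v : Z ι K} (hu : Deg V n u) (hv : Deg V n v) :
    Deg V n (u + v) := fun A B h => by
  rw [Pi.add_apply, Pi.add_apply, hu A B h, hv A B h, add_zero]

theorem Deg.smul {V : Finset ι} {n : ℕ} (c : K) {u : Z ι K} (hu : Deg V n u) :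
    Deg V n (c • u) := fun A B h => by
  rw [Pi.smul_apply, Pi.smul_apply, hu A B h, smul_zero]

theorem Deg.sum {α : Type*} {V : Finset ι} {n : ℕ} (s : Finset α) {u : α → Z ι K}
    (hu : ∀ i ∈ s, Deg V n (u i)) : Deg V n (∑ i ∈ s, u i) := by
  classical
  induction s using Finset.induction_on with
  | empty => exact Deg.zero V n
  | insert i s hi ih =>
    rw [sum_insert hi]
    exact (hu i (mem_insert_self _ _)).add (ih fun j hj => hu j (mem_insert_of_mem hj))

theorem Deg.f {V : Finset ι} {n : ℕ} {u : Z ι K} (hu : Deg V n u) {x : ι} (hx : x ∈ V) :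
    Deg V (n + 1) (f x u) := by
  intro A B h
  rw [f_apply]
  split_ifs with h1
  · refine hu _ _ fun ⟨h3, h4, h5⟩ => h ⟨h3, ?_, ?_⟩
    · intro z hz
      by_cases h6 : z = x
      · subst h6; exact hx
      · exact h4 (mem_erase.2 ⟨h6, hz⟩)
    · rw [card_erase_of_mem h1] at h5
      have := card_pos.2 ⟨x, h1⟩
      omega
  · rfl

theorem Deg.th {V : Finset ι} {n : ℕ} {u : Z ι K} (hu : Deg V n u) {x : ι} (hx : x ∈ V) :
    Deg V (n + 1) (th x u) := by
  intro A B h
  rw [th_apply]
  split_ifs with h1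
  · refine hu _ _ fun ⟨h3, h4, h5⟩ => h ⟨?_, h4, ?_⟩
    · intro z hz
      by_cases h6 : z = x
      · subst h6; exact hx
      · exact h3 (mem_erase.2 ⟨h6, hz⟩)
    · rw [card_erase_of_mem h1] at h5
      have := card_pos.2 ⟨x, h1⟩
      omega
  · rfl

theorem Deg.Dx {V : Finset ι} {n : ℕ} {u : Z ι K} (hu : Deg V n u) {x : ι} (hx : x ∈ V) :
    Deg V n (Dx x u) := by
  intro A B h
  unfold D81877M.Dx
  rw [Module.End.mul_apply, f_apply, d_apply]
  split_ifs with h1 h2
  · rfl
  · refine hu _ _ fun ⟨h3, h4, h5⟩ => h ⟨(subset_insert _ _).trans h3, ?_, ?_⟩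
    · intro z hz
      by_cases h6 : z = x
      · subst h6; exact hx
      · exact h4 (mem_erase.2 ⟨h6, hz⟩)
    · rw [card_insert_of_notMem h2, card_erase_of_mem h1] at h5
      have := card_pos.2 ⟨x, h1⟩
      omega
  · rfl

theorem Deg.EE {V : Finset ι} {n : ℕ} {u : Z ι K} (hu : Deg V n u) {x : ι} (hx : x ∈ V) :
    Deg V (n + 1) (EE V x u) := by
  rw [EE_eq, LinearMap.add_apply, Module.End.mul_apply, LinearMap.sum_apply]
  refine (hu.th hx).add (Deg.f (Deg.sum _ fun y hy => hu.Dx ?_) hx)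
  exact (mem_filter.1 hy).1

theorem deg_vac (V : Finset ι) : Deg V 0 (vac : Z ι K) := by
  intro A B h
  unfold vac
  rw [if_neg]
  rintro ⟨rfl, rfl⟩
  exact h ⟨empty_subset _, empty_subset _, rfl⟩

theorem IsRec.deg {V : Finset ι} {t a : List ι → Z ι K} (h : IsRec V t a) (Q : List ι)
    (hQ : ∀ z ∈ Q, z ∈ V) : Deg V Q.length (t Q) ∧ (1 ≤ Q.length → Deg V (Q.length - 1) (a Q)) := by
  induction Q using List.reverseRecOn with
  | nil =>
    refine ⟨?_, fun h1 => absurd h1 (by simp)⟩
    rw [h.t_nil]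
    exact deg_vac V
  | append_singleton W x ih =>
    have hx : x ∈ V := hQ x (by simp)
    obtain ⟨iht, iha⟩ := ih fun u hu => hQ u (by simp [hu])
    rw [List.length_append, List.length_singleton, h.t_snoc, h.a_snoc]
    rcases Nat.eq_zero_or_pos W.length with h0 | h0
    · have hW : W = [] := List.eq_nil_of_length_eq_zero h0
      subst hW
      rw [h.t_nil, h.a_nil]
      simp only [map_zero, add_zero, smul_zero, List.length_nil, Nat.cast_zero, zero_smul]
      exact ⟨(deg_vac V).EE hx, fun _ => deg_vac V⟩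
    · have ha := iha h0
      have e1 : W.length - 1 + 1 = W.length := Nat.sub_add_cancel h0
      refine ⟨((iht.EE hx).add ((iht.f hx).smul _)).add ?_, fun _ => ?_⟩
      · have := (ha.EE hx).f hx
        rwa [e1] at this
      · have h2 := ha.EE hx
        have h3 := (ha.f hx).smul ((W.length + 1 : ℕ) : K)
        rw [e1] at h2 h3
        exact (iht.add h2).add h3

theorem IsRec.hom {V : Finset ι} {b : ℕ} {t a : List ι → Z ι K} (h : IsRec V t a) {Q : List ι}
    (hQ : ∀ z ∈ Q, z ∈ V) (hl : Q.length = 2 * b + 2) : Hom V b (a Q) := by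
  have h1 := (h.deg Q hQ).2 (by omega)
  rw [hl] at h1
  exact h1

/-! ### the recursion of the chain calculus -/

/-- the words of the chain calculus, read in the order of the list, satisfy the recursion -/
theorem isRec_of_cliff {A : Type*} [CommRing A] [Module A (Z ι K)] (V : Finset ι)
    (C : D81877Ch.Cliff ι A (Z ι K)) (hE : ∀ x (w : Z ι K), C.E x w = EE V x w)
    (hf : ∀ x (w : Z ι K), C.f x • w = f x w) (ho : C.o = vac) :
    IsRec V (fun Q => C.t Q.reverse) (fun Q => C.a Q.reverse) where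
  t_nil := by rw [List.reverse_nil, C.t_nil, ho]
  a_nil := by rw [List.reverse_nil, C.a_nil]
  t_snoc W x := by
    rw [List.reverse_append, List.reverse_singleton, List.singleton_append, C.t_cons, mul_smul,
      hf, hf, hE, hE, List.length_reverse, Nat.cast_smul_eq_nsmul, Nat.cast_smul_eq_nsmul]
  a_snoc W x := by
    rw [List.reverse_append, List.reverse_singleton, List.singleton_append, C.a_cons, mul_smul,
      hf, hE, List.length_reverse, ← Nat.cast_succ, Nat.cast_smul_eq_nsmul,
      Nat.cast_smul_eq_nsmul]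

/-! ### the inclusion -/

section

variable [Fintype ι]

/-- the chain words `X` (increasing) are first members of pairs: the output of T3 -/
def Chn (V : Finset ι) (b : ℕ) (a : List ι → Z ι K) : Prop :=
  ∀ X ⊆ V, X.card = 2 * b + 2 → ∃ x : WW ι K, IsPair V b x (a (X.sort (· ≤ ·)))

theorem sp_le_U [CharP K 2] {V : Finset ι} {b : ℕ} (hS : Swp K V b) {t a : List ι → Z ι K}
    (h : IsRec V t a) (hC : Chn V b a) {P : List ι → Z ι K} (hP : ∀ Q, P Q = D V (a Q))
    {z : Z ι K} (hz : z ∈ D818Zm.sp P V (2 * b + 2)) : z ∈ U V b := by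
  have h1 : D818Zm.sp P V (2 * b + 2) ≤ (U V b).toAddSubgroup := by
    unfold D818Zm.sp
    rw [AddSubgroup.closure_le]
    rintro _ ⟨Q, ⟨hQ, hl, hV⟩, rfl⟩
    change P Q ∈ U V b
    rw [hP]
    refine list_mem_U hS h (fun X hX hc => ?_) hQ hl hV
    obtain ⟨x, hx⟩ := hC X hX hc
    exact ⟨x, _, hx, rfl⟩
  exact h1 hz

theorem exists_pair [CharP K 2] {V : Finset ι} {b : ℕ} (hS : Swp K V b)
    {t a : List ι → Z ι K} (h : IsRec V t a) (hC : Chn V b a) {P : List ι → Z ι K}
    (hP : ∀ Q, P Q = D V (a Q)) {z : Z ι K} (hz : z ∈ D818Zm.sp P V (2 * b + 2)) :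
    ∃ x w, IsPair V b x w ∧ z = D V w :=
  sp_le_U hS h hC hP hz

end

end D81877M
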