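import Pool.Agent.Lib.MP_d81877_alM.Pairs

/-!
# MP_d81877_al, part D, T5: the submodule `U V b` and the words of arbitrary lists
-/

namespace D81877M

open Finset Function MP_d81877_alI D81877ZF

variable {ι : Type*} [LinearOrder ι] {K : Type*} [Field K]

theorem Dm.zero (V : Finset ι) (b : ℕ) : Dm V b (0 : WW ι K) where
  shp _ _ := rfl
  prm _ _ _ _ _ _ := by simp

theorem Dm.add {V : Finset ι} {b : ℕ} {u v : WW ι K} (hu : Dm V b u) (hv : Dm V b v) :
    Dm V b (u + v) where
  shp S hS := by rw [Pi.add_apply, hu.shp S hS, hv.shp S hS, add_zero]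
  prm j j' hj r hr S := by
    simp only [Pi.add_apply, sum_add_distrib]
    rw [hu.prm j j' hj r hr S, hv.prm j j' hj r hr S, add_zero]

theorem Dm.smul {V : Finset ι} {b : ℕ} (c : K) {u : WW ι K} (hu : Dm V b u) :
    Dm V b (c • u) where
  shp S hS := by rw [Pi.smul_apply, hu.shp S hS, smul_zero]
  prm j j' hj r hr S := by
    simp only [Pi.smul_apply, smul_eq_mul, ← mul_sum]
    rw [hu.prm j j' hj r hr S, mul_zero]

/-! ### homogeneous elements -/

theorem Hom.zero (V : Finset ι) (b : ℕ) : Hom V b (0 : Z ι K) := fun _ _ _ => rfl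

theorem Hom.add {V : Finset ι} {b : ℕ} {u v : Z ι K} (hu : Hom V b u) (hv : Hom V b v) :
    Hom V b (u + v) := fun A B h => by
  rw [Pi.add_apply, Pi.add_apply, hu A B h, hv A B h, add_zero]

theorem Hom.smul {V : Finset ι} {b : ℕ} (c : K) {u : Z ι K} (hu : Hom V b u) :
    Hom V b (c • u) := fun A B h => by
  rw [Pi.smul_apply, Pi.smul_apply, hu A B h, smul_zero]

theorem Hom.Dx {V : Finset ι} {b : ℕ} {u : Z ι K} (hu : Hom V b u) {x : ι} (hx : x ∈ V) :
    Hom V b (Dx x u) := by
  intro A B h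
  unfold D81877M.Dx
  rw [Module.End.mul_apply, f_apply, d_apply]
  split_ifs with h1 h2
  · rfl
  · refine hu _ _ fun ⟨h3, h4, h5⟩ => h ⟨(subset_insert _ _).trans h3, ?_, ?_⟩
    · intro z hz
      by_cases h6 : z = x
      · subst h6; exact hx
      · exact h4 (mem_erase.2 ⟨h6, hz⟩)
    · rw [card_insert_of_notMem h2, card_erase_of_mem h1] at h5
      have := card_pos.2 ⟨x, h1⟩
      omega
  · rfl

theorem Hom.swZ {V : Finset ι} {b : ℕ} {u : Z ι K} (hu : Hom V b u) {x y : ι} (hx : x ∈ V)
    (hy : y ∈ V) : Hom V b (swZ x y u) := by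
  intro A B h
  rw [swZ_apply]
  refine hu _ _ fun ⟨h3, h4, h5⟩ => h ⟨?_, ?_, ?_⟩
  · rw [← img2 x y A, ← image_swap_eq hx hy]
    exact image_subset_image h3
  · rw [← img2 x y B, ← image_swap_eq hx hy]
    exact image_subset_image h4
  · rwa [card_image_of_injective _ (Equiv.injective _),
      card_image_of_injective _ (Equiv.injective _)] at h5

theorem Hom.tws {V : Finset ι} {b : ℕ} {u : Z ι K} (hu : Hom V b u) {x y : ι} (hx : x ∈ V)
    (hy : y ∈ V) : Hom V b (tws x y u) := by
  rw [tws_eq, Module.End.mul_apply, LinearMap.add_apply, Module.End.one_apply,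
    Module.End.mul_apply]
  exact (hu.add ((hu.Dx hy).Dx hx)).swZ hx hy

/-! ### pairs -/

section

variable [Fintype ι]

theorem IsPair.zero (V : Finset ι) (b : ℕ) : IsPair V b (0 : WW ι K) 0 where
  dm := Dm.zero V b
  hom := Hom.zero V b
  px := by rw [p_zero, map_zero]
  pair y _ := by simp [B0_zero_left]

theorem IsPair.add {V : Finset ι} {b : ℕ} {x x' : WW ι K} {w w' : Z ι K}
    (h : IsPair V b x w) (h' : IsPair V b x' w') : IsPair V b (x + x') (w + w') where
  dm := Dm.add h.dm h'.dm
  hom := h.hom.add h'.hom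
  px := by rw [p_add, map_add, h.px, h'.px]
  pair y hy := by
    simp only [Pi.add_apply, add_mul, sum_add_distrib]
    rw [h.pair y hy, h'.pair y hy, B0_add_left]

theorem IsPair.smul {V : Finset ι} {b : ℕ} (c : K) {x : WW ι K} {w : Z ι K}
    (h : IsPair V b x w) : IsPair V b (c • x) (c • w) where
  dm := Dm.smul c h.dm
  hom := h.hom.smul c
  px := by rw [p_smul, map_smul, h.px]
  pair y hy := by
    simp only [Pi.smul_apply, smul_eq_mul, mul_assoc, ← mul_sum]
    rw [h.pair y hy, B0_smul_left]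

/-- the images `p x` of the first members of the pairs -/
def U (V : Finset ι) (b : ℕ) : Submodule K (Z ι K) where
  carrier := {z | ∃ x w, IsPair V b x w ∧ z = D V w}
  zero_mem' := ⟨0, 0, IsPair.zero V b, by rw [map_zero]⟩
  add_mem' := by
    rintro _ _ ⟨x, w, h, rfl⟩ ⟨x', w', h', rfl⟩
    exact ⟨_, _, h.add h', by rw [map_add]⟩
  smul_mem' := by
    rintro c _ ⟨x, w, h, rfl⟩
    exact ⟨_, _, h.smul c, by rw [map_smul]⟩

theorem mem_U {V : Finset ι} {b : ℕ} {z : Z ι K} :
    z ∈ U V b ↔ ∃ x w, IsPair V b x w ∧ z = D V w := Iff.rfl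

/-- the map `p` is compatible with the exchange of adjacent sites -/
def Swp (K : Type*) [Field K] (V : Finset ι) (b : ℕ) : Prop :=
  ∀ x y : ι, Adj V x y → ∀ v : WW ι K, Dm V b v → p V (swW x y v) = tws x y (p V v)

theorem IsPair.swap [CharP K 2] {V : Finset ι} {b : ℕ} {x : WW ι K} {w : Z ι K}
    (h : IsPair V b x w) (hS : Swp K V b) {i k : ι} (hik : Adj V i k) :
    IsPair V b (swW i k x) (tws i k w) where
  dm := Dm_swW h.dm hik.1 hik.2.1
  hom := h.hom.tws hik.1 hik.2.1
  px := by
    rw [hS i k hik x h.dm, h.px, ← Module.End.mul_apply, (tws_D hik.1 hik.2.1).eq,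
      Module.End.mul_apply]
  pair y hy := by
    rw [sum_swW, h.pair _ (Dm_swW hy hik.1 hik.2.1), hS i k hik y hy, B0_tws hik.1 hik.2.1]

theorem tws_mem_U [CharP K 2] {V : Finset ι} {b : ℕ} (hS : Swp K V b) {z : Z ι K}
    (hz : z ∈ U V b) {i k : ι} (hik : Adj V i k) : tws i k z ∈ U V b := by
  obtain ⟨x, w, h, rfl⟩ := hz
  refine ⟨_, _, h.swap hS hik, ?_⟩
  rw [← Module.End.mul_apply, (tws_D hik.1 hik.2.1).eq, Module.End.mul_apply]

end

/-! ### the recursion of the words of lists -/

/-- the vacuum -/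
def vac : Z ι K := fun A B => if A = ∅ ∧ B = ∅ then 1 else 0

theorem d_vac (x : ι) : d x (vac : Z ι K) = 0 := by
  funext A B
  simp [d_apply, vac]

theorem Dx_vac (x : ι) : Dx x (vac : Z ι K) = 0 := by
  unfold Dx
  rw [Module.End.mul_apply, d_vac, map_zero]

theorem swZ_vac (x y : ι) : swZ x y (vac : Z ι K) = vac := by
  funext A B
  simp [swZ_apply, vac]

theorem tws_vac (x y : ι) : tws x y (vac : Z ι K) = vac := by
  rw [tws_eq, Module.End.mul_apply, LinearMap.add_apply, Module.End.mul_apply, Dx_vac, map_zero,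
    add_zero, Module.End.one_apply, swZ_vac]

/-- the recursion of the words `t Q` and `a Q` of lists -/
structure IsRec (V : Finset ι) (t a : List ι → Z ι K) : Prop where
  t_nil : t [] = vac
  a_nil : a [] = 0
  t_snoc : ∀ (W : List ι) (x : ι), t (W ++ [x])
    = EE V x (t W) + (W.length : K) • f x (t W) + f x (EE V x (a W))
  a_snoc : ∀ (W : List ι) (x : ι), a (W ++ [x])
    = t W + EE V x (a W) + ((W.length + 1 : ℕ) : K) • f x (a W)

theorem IsRec.exch [CharP K 2] {V : Finset ι} {t a : List ι → Z ι K} (h : IsRec V t a) {x y : ι}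
    (hxy : Adj V x y) (Q : List ι) (hQ : ∀ z ∈ Q, z ∈ V) :
    tws x y (t Q) = t (Q.map (Equiv.swap x y)) ∧ tws x y (a Q) = a (Q.map (Equiv.swap x y)) := by
  induction Q using List.reverseRecOn with
  | nil => exact ⟨by rw [List.map_nil, h.t_nil, tws_vac], by rw [List.map_nil, h.a_nil, map_zero]⟩
  | append_singleton W z ih =>
    have hz : z ∈ V := hQ z (by simp)
    obtain ⟨iht, iha⟩ := ih fun u hu => hQ u (by simp [hu])
    have e1 : ∀ u : Z ι K, tws x y (EE V z u) = EE V (Equiv.swap x y z) (tws x y u) := fun u => by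
      rw [← Module.End.mul_apply, tws_EE hxy hz, Module.End.mul_apply]
    have e2 : ∀ u : Z ι K, tws x y (f z u) = f (Equiv.swap x y z) (tws x y u) := fun u => by
      rw [← Module.End.mul_apply, tws_f, Module.End.mul_apply]
    rw [List.map_append, List.map_singleton, h.t_snoc, h.a_snoc, h.t_snoc, h.a_snoc]
    simp only [map_add, map_smul, e1, e2, iht, iha, List.length_map, and_self]

/-! ### words of arbitrary lists -/

theorem map_swap_of_mem {x y : ι} {V : Finset ι} (hx : x ∈ V) (hy : y ∈ V) {Q : List ι}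
    (hQ : ∀ z ∈ Q, z ∈ V) : ∀ z ∈ Q.map (Equiv.swap x y), z ∈ V := by
  intro z hz
  obtain ⟨w, hw, rfl⟩ := List.mem_map.1 hz
  rw [← image_swap_eq hx hy]
  exact mem_image_of_mem _ (hQ w hw)

theorem map_swap_swap (x y : ι) (Q : List ι) :
    (Q.map (Equiv.swap x y)).map (Equiv.swap x y) = Q := by
  rw [List.map_map]
  conv_rhs => rw [← List.map_id Q]
  refine List.map_congr_left fun z _ => ?_
  simp

section

variable [Fintype ι]

/-- the statement that the words of lists are in `U` is invariant under a permutation -/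
def Inv (V : Finset ι) (b : ℕ) (a : List ι → Z ι K) (σ : Equiv.Perm ι) : Prop :=
  ∀ Q : List ι, (∀ z ∈ Q, z ∈ V) → D V (a Q) ∈ U V b → D V (a (Q.map σ)) ∈ U V b

theorem inv_adj [CharP K 2] {V : Finset ι} {b : ℕ} (hS : Swp K V b) {t a : List ι → Z ι K}
    (h : IsRec V t a) {x y : ι} (hxy : Adj V x y) : Inv V b a (Equiv.swap x y) := by
  intro Q hQ hm
  rw [← (h.exch hxy Q hQ).2, ← Module.End.mul_apply, ← (tws_D hxy.1 hxy.2.1).eq,
    Module.End.mul_apply]
  exact tws_mem_U hS hm hxy

theorem inv_lt [CharP K 2] {V : Finset ι} {b : ℕ} (hS : Swp K V b) {t a : List ι → Z ι K}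
    (h : IsRec V t a) (n : ℕ) : ∀ x y : ι, x ∈ V → y ∈ V → x < y →
      (V.filter (fun z => x < z ∧ z < y)).card = n → Inv V b a (Equiv.swap x y) := by
  induction n using Nat.strong_induction_on with
  | _ n ih =>
    intro x y hx hy hxy hn
    by_cases h0 : ∀ z ∈ V, ¬ (x < z ∧ z < y)
    · exact inv_adj hS h ⟨hx, hy, hxy, h0⟩
    · push Not at h0
      obtain ⟨z, hz, hxz, hzy⟩ := h0
      have m1 : z ∈ V.filter (fun u => x < u ∧ u < y) := mem_filter.2 ⟨hz, hxz, hzy⟩
      have l1 : (V.filter (fun u => x < u ∧ u < z)).card < n := by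
        rw [← hn]
        refine card_lt_card ⟨?_, fun hh => ?_⟩
        · intro u hu
          rw [mem_filter] at hu ⊢
          exact ⟨hu.1, hu.2.1, hu.2.2.trans hzy⟩
        · exact absurd (mem_filter.1 (hh m1)).2.2 (lt_irrefl _)
      have l2 : (V.filter (fun u => z < u ∧ u < y)).card < n := by
        rw [← hn]
        refine card_lt_card ⟨?_, fun hh => ?_⟩
        · intro u hu
          rw [mem_filter] at hu ⊢
          exact ⟨hu.1, hxz.trans hu.2.1, hu.2.2⟩
        · exact absurd (mem_filter.1 (hh m1)).2.1 (lt_irrefl _)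
      have i1 := ih _ l1 x z hx hz hxz rfl
      have i2 := ih _ l2 z y hz hy hzy rfl
      intro Q hQ hm
      have q1 := map_swap_of_mem hx hz hQ
      have q2 := map_swap_of_mem hz hy q1
      have r1 := i1 _ q2 (i2 _ q1 (i1 _ hQ hm))
      have e : ((Q.map (Equiv.swap x z)).map (Equiv.swap z y)).map (Equiv.swap x z)
          = Q.map (Equiv.swap x y) := by
        rw [List.map_map, List.map_map]
        refine List.map_congr_left fun u _ => ?_
        have : Equiv.swap x z * Equiv.swap z y * Equiv.swap x z = Equiv.swap x y := by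
          rw [Equiv.swap_comm x z, Equiv.swap_comm z y]
          exact Equiv.swap_mul_swap_mul_swap hzy.ne' (hxz.trans hzy).ne'
        exact congrArg (fun σ : Equiv.Perm ι => σ u) this
      rwa [e] at r1

theorem inv_swap [CharP K 2] {V : Finset ι} {b : ℕ} (hS : Swp K V b) {t a : List ι → Z ι K}
    (h : IsRec V t a) {x y : ι} (hx : x ∈ V) (hy : y ∈ V) : Inv V b a (Equiv.swap x y) := by
  rcases lt_trichotomy x y with h1 | h1 | h1
  · exact inv_lt hS h _ x y hx hy h1 rfl
  · subst h1
    intro Q _ hm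
    simpa using hm
  · rw [Equiv.swap_comm]
    exact inv_lt hS h _ y x hy hx h1 rfl

theorem perm_mem_U [CharP K 2] {V : Finset ι} {b : ℕ} (hS : Swp K V b) {t a : List ι → Z ι K}
    (h : IsRec V t a) {l l' : List ι} (hp : l.Perm l') :
    ∀ A : List ι, (A ++ l).Nodup → (∀ z ∈ A ++ l, z ∈ V) → D V (a (A ++ l)) ∈ U V b →
      D V (a (A ++ l')) ∈ U V b := by
  induction hp with
  | nil => intro A _ _ hm; exact hm
  | cons x _ ih =>
    intro A h1 h2 h3
    have := ih (A ++ [x])
    simp only [List.append_assoc, List.singleton_append] at this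
    exact this h1 h2 h3
  | swap x y l =>
    intro A h1 h2 h3
    have hx : x ∈ V := h2 x (by simp)
    have hy : y ∈ V := h2 y (by simp)
    have h4 := inv_swap hS h hx hy _ h2 h3
    have hnd := h1
    rw [List.nodup_append] at h1
    obtain ⟨_, h6, h7⟩ := h1
    have hxl : x ∉ l := by
      have := (List.nodup_cons.1 (List.nodup_cons.1 h6).2).1
      exact this
    have hyl : y ∉ l := fun hh => (List.nodup_cons.1 h6).1 (by simp [hh])
    have hxA : x ∉ A := fun hh => h7 x hh x (by simp) rfl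
    have hyA : y ∉ A := fun hh => h7 y hh y (by simp) rfl
    have e1 : ∀ B : List ι, x ∉ B → y ∉ B → B.map (Equiv.swap x y) = B := by
      intro B h8 h9
      conv_rhs => rw [← List.map_id B]
      refine List.map_congr_left fun z hz => ?_
      rw [Equiv.swap_apply_of_ne_of_ne (by rintro rfl; exact h8 hz) (by rintro rfl; exact h9 hz)]
      rfl
    have e : (A ++ y :: x :: l).map (Equiv.swap x y) = A ++ x :: y :: l := by
      rw [List.map_append, List.map_cons, List.map_cons, e1 A hxA hyA, e1 l hxl hyl,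
        Equiv.swap_apply_left, Equiv.swap_apply_right]
    rwa [e] at h4
  | trans h12 _ ih1 ih2 =>
    intro A h1 h2 h3
    have hp' := h12.append_left A
    exact ih2 A (hp'.nodup_iff.1 h1) (fun z hz => h2 z (hp'.mem_iff.2 hz)) (ih1 A h1 h2 h3)

/-- all lists: it suffices to treat the increasing lists -/
theorem list_mem_U [CharP K 2] {V : Finset ι} {b : ℕ} (hS : Swp K V b) {t a : List ι → Z ι K}
    (h : IsRec V t a)
    (hinc : ∀ X ⊆ V, X.card = 2 * b + 2 → D V (a (X.sort (· ≤ ·))) ∈ U V b)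
    {Q : List ι} (hQ : Q.Nodup) (hl : Q.length = 2 * b + 2) (hV : ∀ z ∈ Q, z ∈ V) :
    D V (a Q) ∈ U V b := by
  have h1 : (Q.toFinset.sort (· ≤ ·)).Perm Q := by
    rw [List.perm_ext_iff_of_nodup (Finset.sort_nodup _ _) hQ]
    intro z
    simp
  have h2 := perm_mem_U hS h h1 []
  simp only [List.nil_append] at h2
  refine h2 (Finset.sort_nodup _ _) (fun z hz => hV z (by simpa using hz)) (hinc _ ?_ ?_)
  · intro z hz
    exact hV z (by simpa using hz)
  · rw [List.toFinset_card_of_nodup hQ, hl]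

end

end D81877M
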