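import Pool.Agent.Lib.MP_d81877_alM.Defs

/-!
# MP_d81877_al, part D, T5: the submodules `U V b` and their closure properties
-/

namespace D81877M

open Finset Function MP_d81877_alI D81877ZF

variable {ι : Type*} [LinearOrder ι] {K : Type*} [Field K]

/-! ### permutations of sites on words -/

theorem Prm_perm (σ : Equiv.Perm ι) {v : WW ι K} (hv : Prm v) :
    Prm (fun S => v (fun j => (S j).image σ)) := by
  intro j j' hj r hr S
  rw [← hv j j' hj r hr (fun j => (S j).image σ)]
  refine sum_nbij' (fun Y => Y.image σ) (fun Y => Y.image σ.symm) ?_ ?_ ?_ ?_ ?_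
  · intro Y hY
    rw [mem_powersetCard] at hY ⊢
    refine ⟨?_, by rw [card_image_of_injective _ σ.injective]; exact hY.2⟩
    rw [← image_sdiff _ _ σ.injective]
    exact image_subset_image hY.1
  · intro Y hY
    rw [mem_powersetCard] at hY ⊢
    refine ⟨?_, by rw [card_image_of_injective _ σ.symm.injective]; exact hY.2⟩
    rw [← image_sdiff _ _ σ.injective] at hY
    have := image_subset_image (f := σ.symm) hY.1
    rwa [image_image, Equiv.symm_comp_self, image_id] at this
  · intro Y _
    simp [image_image]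
  · intro Y _
    simp [image_image]
  · intro Y _
    change v _ = v _
    congr 1
    funext l
    have hjj : j ≠ j' := by rintro rfl; omega
    by_cases h1 : l = j'
    · subst h1
      simp [image_union]
    · by_cases h2 : l = j
      · subst h2
        simp [h1, image_sdiff _ _ σ.injective]
      · simp [h1, h2]

theorem Shp_perm (σ : Equiv.Perm ι) {V : Finset ι} (hσ : V.image σ = V) (b : ℕ)
    (S : Fin 4 → Finset ι) : Shp V b (fun j => (S j).image σ) ↔ Shp V b S := by
  have key : ∀ T : Finset ι, T.image σ ⊆ V ↔ T ⊆ V := by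
    intro T
    conv_lhs => rw [← hσ]
    exact image_subset_image_iff σ.injective
  unfold Shp
  simp only [key, card_image_of_injective _ σ.injective]

theorem image_swap_eq {V : Finset ι} {x y : ι} (hx : x ∈ V) (hy : y ∈ V) :
    V.image (Equiv.swap x y) = V := by
  ext z
  simp only [mem_image]
  constructor
  · rintro ⟨w, hw, rfl⟩
    by_cases h1 : w = x
    · subst h1; rwa [Equiv.swap_apply_left]
    · by_cases h2 : w = y
      · subst h2; rwa [Equiv.swap_apply_right]
      · rwa [Equiv.swap_apply_of_ne_of_ne h1 h2]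
  · intro hz
    refine ⟨Equiv.swap x y z, ?_, Equiv.swap_apply_self x y z⟩
    by_cases h1 : z = x
    · subst h1; rwa [Equiv.swap_apply_left]
    · by_cases h2 : z = y
      · subst h2; rwa [Equiv.swap_apply_right]
      · rwa [Equiv.swap_apply_of_ne_of_ne h1 h2]

theorem Dm_swW {V : Finset ι} {b : ℕ} {v : WW ι K} (hv : Dm V b v) {x y : ι} (hx : x ∈ V)
    (hy : y ∈ V) : Dm V b (swW x y v) where
  shp S hS := hv.shp _ (by rwa [Shp_perm _ (image_swap_eq hx hy)])
  prm := Prm_perm _ hv.prm

theorem img2 (x y : ι) (T : Finset ι) :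
    (T.image (Equiv.swap x y)).image (Equiv.swap x y) = T := by
  ext z
  simp only [mem_image]
  constructor
  · rintro ⟨w, ⟨u, hu, rfl⟩, rfl⟩
    rwa [Equiv.swap_apply_self]
  · intro hz
    exact ⟨_, ⟨z, hz, rfl⟩, Equiv.swap_apply_self x y z⟩

theorem swW_swW (x y : ι) (v : WW ι K) : swW x y (swW x y v) = v := by
  funext S
  simp only [swW, img2]

theorem sum_swW [Fintype ι] (x y : ι) (u v : WW ι K) :
    ∑ S, swW x y u S * v S = ∑ S, u S * swW x y v S := by
  refine sum_nbij' (fun S => fun j => (S j).image (Equiv.swap x y))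
    (fun S => fun j => (S j).image (Equiv.swap x y)) ?_ ?_ ?_ ?_ ?_
  · intro S _; exact mem_univ _
  · intro S _; exact mem_univ _
  · intro S _; funext j; simp only [img2]
  · intro S _; funext j; simp only [img2]
  · intro S _; simp only [swW, img2]

/-! ### the exchange of names in `Z` -/

theorem swZ_swZ (x y : ι) : (swZ x y : Module.End K (Z ι K)) * swZ x y = 1 := by
  ext u A B
  simp only [Module.End.mul_apply, swZ_apply, img2, Module.End.one_apply]

theorem swZ_f (x y z : ι) :
    (swZ x y : Module.End K (Z ι K)) * f z = f (Equiv.swap x y z) * swZ x y := by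
  ext u A B
  simp only [Module.End.mul_apply, swZ_apply, f_apply]
  have h1 : z ∈ B.image (Equiv.swap x y) ↔ Equiv.swap x y z ∈ B := by
    constructor
    · intro h
      obtain ⟨w, hw, rfl⟩ := mem_image.1 h
      rwa [Equiv.swap_apply_self]
    · intro h
      exact mem_image.2 ⟨_, h, Equiv.swap_apply_self x y z⟩
  by_cases hz : Equiv.swap x y z ∈ B
  · rw [if_pos (h1.2 hz), if_pos hz]
    congr 1
    conv_rhs => rw [image_erase (Equiv.injective _)]
    rw [Equiv.swap_apply_self]
  · rw [if_neg (fun h => hz (h1.1 h)), if_neg hz]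

theorem swZ_th (x y z : ι) :
    (swZ x y : Module.End K (Z ι K)) * th z = th (Equiv.swap x y z) * swZ x y := by
  ext u A B
  simp only [Module.End.mul_apply, swZ_apply, th_apply]
  have h1 : z ∈ A.image (Equiv.swap x y) ↔ Equiv.swap x y z ∈ A := by
    constructor
    · intro h
      obtain ⟨w, hw, rfl⟩ := mem_image.1 h
      rwa [Equiv.swap_apply_self]
    · intro h
      exact mem_image.2 ⟨_, h, Equiv.swap_apply_self x y z⟩
  by_cases hz : Equiv.swap x y z ∈ A
  · rw [if_pos (h1.2 hz), if_pos hz]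
    congr 1
    conv_rhs => rw [image_erase (Equiv.injective _)]
    rw [Equiv.swap_apply_self]
  · rw [if_neg (fun h => hz (h1.1 h)), if_neg hz]

theorem swZ_d (x y z : ι) :
    (swZ x y : Module.End K (Z ι K)) * d z = d (Equiv.swap x y z) * swZ x y := by
  ext u A B
  simp only [Module.End.mul_apply, swZ_apply, d_apply]
  have h1 : z ∈ A.image (Equiv.swap x y) ↔ Equiv.swap x y z ∈ A := by
    constructor
    · intro h
      obtain ⟨w, hw, rfl⟩ := mem_image.1 h
      rwa [Equiv.swap_apply_self]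
    · intro h
      exact mem_image.2 ⟨_, h, Equiv.swap_apply_self x y z⟩
  by_cases hz : Equiv.swap x y z ∈ A
  · rw [if_pos (h1.2 hz), if_pos hz]
  · rw [if_neg (fun h => hz (h1.1 h)), if_neg hz]
    congr 1
    rw [image_insert, Equiv.swap_apply_self]

theorem swZ_g (x y z : ι) :
    (swZ x y : Module.End K (Z ι K)) * g z = g (Equiv.swap x y z) * swZ x y := by
  ext u A B
  simp only [Module.End.mul_apply, swZ_apply, g_apply]
  have h1 : z ∈ B.image (Equiv.swap x y) ↔ Equiv.swap x y z ∈ B := by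
    constructor
    · intro h
      obtain ⟨w, hw, rfl⟩ := mem_image.1 h
      rwa [Equiv.swap_apply_self]
    · intro h
      exact mem_image.2 ⟨_, h, Equiv.swap_apply_self x y z⟩
  by_cases hz : Equiv.swap x y z ∈ B
  · rw [if_pos (h1.2 hz), if_pos hz]
  · rw [if_neg (fun h => hz (h1.1 h)), if_neg hz]
    congr 1
    rw [image_insert, Equiv.swap_apply_self]

/-! ### the operators `D_x = f_x d_x` -/

/-- `D_x = f_x d_x` -/
def Dx (x : ι) : Module.End K (Z ι K) := f x * d x

theorem Dx_comm (x y : ι) : Commute (Dx x : Module.End K (Z ι K)) (Dx y) := by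
  unfold Dx
  exact (((f_comm x y).mul_right (f_d_comm x y))).mul_left
    ((f_d_comm y x).symm.mul_right (d_comm x y))

theorem f_Dx (x y : ι) : Commute (f x : Module.End K (Z ι K)) (Dx y) :=
  (f_comm x y).mul_right (f_d_comm x y)

theorem d_Dx (x y : ι) : Commute (d x : Module.End K (Z ι K)) (Dx y) :=
  (f_d_comm y x).symm.mul_right (d_comm x y)

theorem Dx_sq (x : ι) : (Dx x : Module.End K (Z ι K)) * Dx x = 0 := by
  unfold Dx
  rw [mul_assoc, ← mul_assoc (d x), ← (f_d_comm x x).eq, mul_assoc (f x) (d x), d_sq, mul_zero,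
    mul_zero]

theorem f_mul_Dx (x : ι) : (f x : Module.End K (Z ι K)) * Dx x = 0 := by
  unfold Dx
  rw [← mul_assoc, f_sq, zero_mul]

theorem D_eq (V : Finset ι) : (D V : Module.End K (Z ι K)) = ∑ x ∈ V, Dx x := rfl

theorem Dx_D (x : ι) (V : Finset ι) : Commute (Dx x : Module.End K (Z ι K)) (D V) :=
  (f_D V x).mul_left (d_D V x)

theorem Dx_e (x : ι) (V : Finset ι) : Commute (Dx x : Module.End K (Z ι K)) (e V) := by
  unfold e
  exact Commute.sum_right _ _ _ fun y _ => (d_Dx y x).symm

theorem swZ_Dx (x y z : ι) :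
    (swZ x y : Module.End K (Z ι K)) * Dx z = Dx (Equiv.swap x y z) * swZ x y := by
  unfold Dx
  rw [← mul_assoc, swZ_f, mul_assoc, swZ_d, ← mul_assoc]

theorem swZ_D {V : Finset ι} {x y : ι} (hx : x ∈ V) (hy : y ∈ V) :
    Commute (swZ x y : Module.End K (Z ι K)) (D V) := by
  change _ * _ = _ * _
  rw [D_eq, mul_sum, sum_mul]
  conv_rhs => rw [← image_swap_eq hx hy, sum_image (fun _ _ _ _ h => (Equiv.injective _) h)]
  exact sum_congr rfl fun z _ => swZ_Dx x y z

theorem swZ_e {V : Finset ι} {x y : ι} (hx : x ∈ V) (hy : y ∈ V) :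
    Commute (swZ x y : Module.End K (Z ι K)) (e V) := by
  change _ * _ = _ * _
  rw [e, mul_sum, sum_mul]
  conv_rhs => rw [← image_swap_eq hx hy, sum_image (fun _ _ _ _ h => (Equiv.injective _) h)]
  exact sum_congr rfl fun z _ => swZ_d x y z

/-! ### the twisted exchange -/

theorem tws_eq (x y : ι) : (tws x y : Module.End K (Z ι K)) = swZ x y * (1 + Dx x * Dx y) := rfl

theorem tws_eq' (x y : ι) :
    (tws x y : Module.End K (Z ι K)) = (1 + Dx x * Dx y) * swZ x y := by
  rw [tws_eq, mul_add, add_mul, mul_one, one_mul, ← mul_assoc, swZ_Dx, Equiv.swap_apply_left,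
    mul_assoc, swZ_Dx, Equiv.swap_apply_right, ← mul_assoc, (Dx_comm y x).eq]

theorem DD_sq (x y : ι) : ((Dx x * Dx y) * (Dx x * Dx y) : Module.End K (Z ι K)) = 0 := by
  rw [mul_assoc, ← mul_assoc (Dx y), (Dx_comm y x).eq, mul_assoc (Dx x) (Dx y), Dx_sq, mul_zero,
    mul_zero]

theorem tws_tws [CharP K 2] (x y : ι) : (tws x y : Module.End K (Z ι K)) * tws x y = 1 := by
  nth_rw 1 [tws_eq']
  rw [tws_eq, mul_assoc, ← mul_assoc (swZ x y), swZ_swZ, one_mul, add_mul, one_mul, mul_add,
    DD_sq, mul_one, add_zero, add_assoc, end_add_self, add_zero]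

theorem tws_D {V : Finset ι} {x y : ι} (hx : x ∈ V) (hy : y ∈ V) :
    Commute (tws x y : Module.End K (Z ι K)) (D V) := by
  rw [tws_eq]
  exact (swZ_D hx hy).mul_left ((Commute.one_left _).add_left ((Dx_D x V).mul_left (Dx_D y V)))

theorem tws_e {V : Finset ι} {x y : ι} (hx : x ∈ V) (hy : y ∈ V) :
    Commute (tws x y : Module.End K (Z ι K)) (e V) := by
  rw [tws_eq]
  exact (swZ_e hx hy).mul_left ((Commute.one_left _).add_left ((Dx_e x V).mul_left (Dx_e y V)))

theorem tws_f (x y z : ι) :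
    (tws x y : Module.End K (Z ι K)) * f z = f (Equiv.swap x y z) * tws x y := by
  have h1 : Commute (1 + Dx x * Dx y : Module.End K (Z ι K)) (f z) :=
    (Commute.one_left _).add_left ((f_Dx z x).symm.mul_left (f_Dx z y).symm)
  rw [tws_eq, mul_assoc, h1.eq, ← mul_assoc, swZ_f, mul_assoc]

theorem sum_powerset_image {V : Finset ι} {x y : ι} (hx : x ∈ V) (hy : y ∈ V)
    (F : Finset ι → K) :
    ∑ A ∈ V.powerset, F (A.image (Equiv.swap x y)) = ∑ A ∈ V.powerset, F A := by
  have h : ∀ A ∈ V.powerset, A.image (Equiv.swap x y) ∈ V.powerset := by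
    intro A hA
    rw [mem_powerset] at hA ⊢
    rw [← image_swap_eq hx hy]
    exact image_subset_image hA
  exact sum_nbij' (fun A => A.image (Equiv.swap x y)) (fun A => A.image (Equiv.swap x y)) h h
    (fun A _ => img2 x y A) (fun A _ => img2 x y A) (fun A _ => rfl)

theorem B0_swZ {V : Finset ι} {x y : ι} (hx : x ∈ V) (hy : y ∈ V) (u v : Z ι K) :
    B0 V (swZ x y u) v = B0 V u (swZ x y v) := by
  unfold B0
  rw [← sum_powerset_image hx hy]
  refine sum_congr rfl fun A _ => ?_
  rw [← sum_powerset_image hx hy]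
  refine sum_congr rfl fun B _ => ?_
  rw [swZ_apply, swZ_apply, img2, img2]

theorem B0_Dx {V : Finset ι} {x : ι} (hx : x ∈ V) (u v : Z ι K) :
    B0 V (Dx x u) v = B0 V u (Dx x v) := by
  unfold Dx
  rw [Module.End.mul_apply, B0_f hx, B0_d hx, ← Module.End.mul_apply]

theorem B0_tws {V : Finset ι} {x y : ι} (hx : x ∈ V) (hy : y ∈ V) (u v : Z ι K) :
    B0 V (tws x y u) v = B0 V u (tws x y v) := by
  nth_rw 1 [tws_eq']
  rw [tws_eq]
  simp only [Module.End.mul_apply, LinearMap.add_apply, Module.End.one_apply, B0_add_left,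
    B0_add_right, map_add]
  rw [B0_swZ hx hy, B0_Dx hx, B0_Dx hy, B0_swZ hx hy]
  rw [← Module.End.mul_apply (Dx y) (Dx x), (Dx_comm y x).eq, Module.End.mul_apply]

/-! ### the operators `E_x` -/

theorem Dx_th_ne {x z : ι} (h : x ≠ z) : Commute (Dx x : Module.End K (Z ι K)) (th z) := by
  unfold Dx
  exact (f_th_comm x z).mul_left (d_th_comm h)

theorem Dx_th_same [CharP K 2] (x : ι) :
    (Dx x : Module.End K (Z ι K)) * th x = th x * Dx x + f x := by
  unfold Dx
  have h1 : (d x : Module.End K (Z ι K)) * th x = th x * d x + 1 := by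
    rw [← d_th_same x, add_comm (d x * th x), ← add_assoc, end_add_self, zero_add]
  rw [mul_assoc, h1, mul_add, mul_one, ← mul_assoc, (f_th_comm x x).eq, mul_assoc]

/-- the set of the sites of `V` above `z` -/
def abv (V : Finset ι) (z : ι) : Finset ι := V.filter (fun u => z < u)

theorem EE_eq (V : Finset ι) (z : ι) :
    (EE V z : Module.End K (Z ι K)) = th z + f z * ∑ u ∈ abv V z, Dx u := rfl

theorem sum_Dx_comm (s : Finset ι) (x : ι) :
    Commute (∑ u ∈ s, Dx u : Module.End K (Z ι K)) (Dx x) :=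
  Commute.sum_left _ _ _ fun u _ => Dx_comm u x

theorem swZ_sum_Dx {x y : ι} (s : Finset ι) :
    (swZ x y : Module.End K (Z ι K)) * ∑ u ∈ s, Dx u
      = (∑ u ∈ s.image (Equiv.swap x y), Dx u) * swZ x y := by
  rw [mul_sum, sum_mul, sum_image (fun _ _ _ _ h => (Equiv.injective _) h)]
  exact sum_congr rfl fun z _ => swZ_Dx x y z

theorem abv_image_of_ne {V : Finset ι} {x y z : ι} (h : Adj V x y) (hz : z ∈ V) (hzx : z ≠ x)
    (hzy : z ≠ y) : (abv V z).image (Equiv.swap x y) = abv V z := by
  have hxy := h.2.2.1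
  have key : ∀ u, u ∈ abv V z → Equiv.swap x y u ∈ abv V z := by
    intro u hu
    simp only [abv, mem_filter] at hu ⊢
    by_cases h1 : u = x
    · subst h1
      rw [Equiv.swap_apply_left]
      exact ⟨h.2.1, hu.2.trans hxy⟩
    · by_cases h2 : u = y
      · subst h2
        rw [Equiv.swap_apply_right]
        refine ⟨h.1, ?_⟩
        rcases lt_trichotomy z x with h3 | h3 | h3
        · exact h3
        · exact absurd h3 hzx
        · exact absurd ⟨h3, hu.2⟩ (h.2.2.2 z hz)
      · rw [Equiv.swap_apply_of_ne_of_ne h1 h2]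
        exact hu
  ext u
  constructor
  · intro hu
    obtain ⟨w, hw, rfl⟩ := mem_image.1 hu
    exact key w hw
  · intro hu
    exact mem_image.2 ⟨_, key u hu, Equiv.swap_apply_self x y u⟩

theorem abv_left {V : Finset ι} {x y : ι} (h : Adj V x y) : abv V x = insert y (abv V y) := by
  ext u
  simp only [abv, mem_filter, mem_insert]
  constructor
  · rintro ⟨hu, hxu⟩
    rcases lt_trichotomy u y with h3 | h3 | h3
    · exact absurd ⟨hxu, h3⟩ (h.2.2.2 u hu)
    · exact Or.inl h3
    · exact Or.inr ⟨hu, h3⟩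
  · rintro (rfl | ⟨hu, hyu⟩)
    · exact ⟨h.2.1, h.2.2.1⟩
    · exact ⟨hu, h.2.2.1.trans hyu⟩

theorem notMem_abv (V : Finset ι) (y : ι) : y ∉ abv V y := by
  simp [abv]

theorem notMem_abv' {V : Finset ι} {x y : ι} (h : x < y) : x ∉ abv V y := by
  simp only [abv, mem_filter, not_and, not_lt]
  intro _
  exact h.le

theorem abv_image {V : Finset ι} {x y : ι} (h : Adj V x y) :
    (abv V y).image (Equiv.swap x y) = abv V y := by
  ext u
  constructor
  · intro hu
    obtain ⟨w, hw, rfl⟩ := mem_image.1 hu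
    have h1 : w ≠ x := by rintro rfl; exact notMem_abv' h.2.2.1 hw
    have h2 : w ≠ y := by rintro rfl; exact notMem_abv V _ hw
    rwa [Equiv.swap_apply_of_ne_of_ne h1 h2]
  · intro hw
    have h1 : u ≠ x := by rintro rfl; exact notMem_abv' h.2.2.1 hw
    have h2 : u ≠ y := by rintro rfl; exact notMem_abv V _ hw
    exact mem_image.2 ⟨u, hw, Equiv.swap_apply_of_ne_of_ne h1 h2⟩

/-- the twisted exchange conjugates `E_z` to `E_{sz}` -/
theorem tws_EE [CharP K 2] {V : Finset ι} {x y z : ι} (h : Adj V x y) (hz : z ∈ V) :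
    (tws x y : Module.End K (Z ι K)) * EE V z = EE V (Equiv.swap x y z) * tws x y := by
  have hxy : x ≠ y := h.2.2.1.ne
  have hS : ∀ s : Finset ι, Commute (∑ u ∈ s, Dx u : Module.End K (Z ι K)) (Dx x * Dx y) :=
    fun s => (sum_Dx_comm s x).mul_right (sum_Dx_comm s y)
  have hf : Commute (f z : Module.End K (Z ι K)) (Dx x * Dx y) :=
    (f_Dx z x).mul_right (f_Dx z y)
  by_cases hzx : z = x
  · subst hzx
    rw [Equiv.swap_apply_left, EE_eq, EE_eq, abv_left h, sum_insert (notMem_abv V y)]
    have e1 : (1 + Dx z * Dx y) * (th z + f z * (Dx y + ∑ u ∈ abv V y, Dx u))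
        = (th z + f z * ∑ u ∈ abv V y, Dx u) * (1 + Dx z * Dx y : Module.End K (Z ι K)) := by
      have a1 : (Dx z * Dx y * th z : Module.End K (Z ι K)) = th z * (Dx z * Dx y) + f z * Dx y := by
        rw [mul_assoc, (Dx_th_ne (K := K) hxy.symm).eq, ← mul_assoc, Dx_th_same, add_mul, mul_assoc]
      have a2 : (Dx z * Dx y * (f z * Dx y) : Module.End K (Z ι K)) = 0 := by
        rw [← mul_assoc, ← hf.eq, mul_assoc, mul_assoc, Dx_sq, mul_zero, mul_zero]
      have a3 : (Dx z * Dx y * (f z * ∑ u ∈ abv V y, Dx u) : Module.End K (Z ι K))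
          = f z * (∑ u ∈ abv V y, Dx u) * (Dx z * Dx y) := by
        rw [← mul_assoc, ← hf.eq, mul_assoc, ← (hS _).eq, ← mul_assoc]
      calc (1 + Dx z * Dx y) * (th z + f z * (Dx y + ∑ u ∈ abv V y, Dx u))
          = th z + f z * Dx y + f z * (∑ u ∈ abv V y, Dx u) + (Dx z * Dx y * th z
            + Dx z * Dx y * (f z * Dx y) + Dx z * Dx y * (f z * ∑ u ∈ abv V y, Dx u)) := by
            simp only [mul_add, add_mul, one_mul]; abel
        _ = (th z + f z * ∑ u ∈ abv V y, Dx u) * (1 + Dx z * Dx y)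
            + (f z * Dx y + f z * Dx y) := by
            rw [a1, a2, a3]; simp only [mul_add, add_mul, mul_one, mul_assoc]; abel
        _ = _ := by rw [end_add_self, add_zero]
    have e2 : (swZ z y : Module.End K (Z ι K)) * (th z + f z * ∑ u ∈ abv V y, Dx u)
        = (th y + f y * ∑ u ∈ abv V y, Dx u) * swZ z y := by
      rw [mul_add, swZ_th, ← mul_assoc, swZ_f, mul_assoc (f _), swZ_sum_Dx, abv_image h,
        Equiv.swap_apply_left, ← mul_assoc, ← add_mul]
    rw [tws_eq, mul_assoc, e1, ← mul_assoc, e2, mul_assoc]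
  · by_cases hzy : z = y
    · subst hzy
      rw [Equiv.swap_apply_right, EE_eq, EE_eq, abv_left h, sum_insert (notMem_abv V z)]
      have e1 : (1 + Dx x * Dx z) * (th z + f z * (∑ u ∈ abv V z, Dx u))
          = (th z + f z * (Dx x + ∑ u ∈ abv V z, Dx u)) * (1 + Dx x * Dx z : Module.End K (Z ι K)) := by
        have a1 : (Dx x * Dx z * th z : Module.End K (Z ι K)) = th z * (Dx x * Dx z) + f z * Dx x := by
          rw [mul_assoc, Dx_th_same, mul_add, ← mul_assoc, (Dx_th_ne (K := K) hxy).eq, mul_assoc,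
            (f_Dx z x).eq]
        have a2 : (f z * Dx x * (Dx x * Dx z) : Module.End K (Z ι K)) = 0 := by
          rw [mul_assoc, ← mul_assoc (Dx x), Dx_sq, zero_mul, mul_zero]
        have a3 : (Dx x * Dx z * (f z * ∑ u ∈ abv V z, Dx u) : Module.End K (Z ι K))
            = f z * (∑ u ∈ abv V z, Dx u) * (Dx x * Dx z) := by
          rw [← mul_assoc, ← hf.eq, mul_assoc, ← (hS _).eq, ← mul_assoc]
        rw [add_mul, one_mul, mul_add, a1, a3, mul_add, mul_one, mul_add (f z), add_mul, add_mul, a2]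
        abel
      have e2 : (swZ x z : Module.End K (Z ι K)) * (th z + f z * (Dx x + ∑ u ∈ abv V z, Dx u))
          = (th x + f x * (Dx z + ∑ u ∈ abv V z, Dx u)) * swZ x z := by
        rw [mul_add, swZ_th, ← mul_assoc, swZ_f, mul_assoc (f _), mul_add, swZ_sum_Dx,
          abv_image h, swZ_Dx, Equiv.swap_apply_right, Equiv.swap_apply_left, ← add_mul,
          ← mul_assoc, ← add_mul]
      rw [tws_eq, mul_assoc, e1, ← mul_assoc, e2, mul_assoc]
    · rw [Equiv.swap_apply_of_ne_of_ne hzx hzy, EE_eq]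
      have e1 : (1 + Dx x * Dx y) * (th z + f z * (∑ u ∈ abv V z, Dx u))
          = (th z + f z * (∑ u ∈ abv V z, Dx u)) * (1 + Dx x * Dx y : Module.End K (Z ι K)) := by
        have c1 : Commute (1 + Dx x * Dx y : Module.End K (Z ι K)) (th z) :=
          (Commute.one_left _).add_left
            ((Dx_th_ne (Ne.symm hzx)).mul_left (Dx_th_ne (Ne.symm hzy)))
        have c2 : Commute (1 + Dx x * Dx y : Module.End K (Z ι K)) (f z) :=
          (Commute.one_left _).add_left hf.symm
        have c3 : Commute (1 + Dx x * Dx y : Module.End K (Z ι K)) (∑ u ∈ abv V z, Dx u) :=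
          (Commute.one_left _).add_left (hS _).symm
        exact (c1.add_right (c2.mul_right c3)).eq
      have e2 : (swZ x y : Module.End K (Z ι K)) * (th z + f z * (∑ u ∈ abv V z, Dx u))
          = (th z + f z * (∑ u ∈ abv V z, Dx u)) * swZ x y := by
        rw [mul_add, swZ_th, ← mul_assoc, swZ_f, mul_assoc (f _), swZ_sum_Dx,
          abv_image_of_ne h hz hzx hzy, Equiv.swap_apply_of_ne_of_ne hzx hzy, ← mul_assoc,
          ← add_mul]
      rw [tws_eq, mul_assoc, e1, ← mul_assoc, e2, mul_assoc]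

end D81877M
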